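import Mathlib
import Pool.Agent.H958.RL.Stm

set_option autoImplicit false

namespace Pool.Agent.H706.RL.Num2

open Filter Topology

/-- `log x ^ 2 / x ^ (1/2)` tends to zero. -/
theorem t1 : Tendsto (fun x : ℝ => 2000 * (Real.log x) ^ 2 / x ^ (1 / 2 : ℝ)) atTop (𝓝 0) := by
  have h := (isLittleO_log_rpow_atTop (r := (1 / 4 : ℝ)) (by norm_num)).tendsto_div_nhds_zero
  have h2 := (h.pow 2).const_mul 2000
  have e : (2000 : ℝ) * 0 ^ 2 = 0 := by norm_num
  rw [e] at h2
  refine h2.congr' ?_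
  filter_upwards [eventually_gt_atTop 0] with x hx
  have : x ^ (1 / 2 : ℝ) = (x ^ (1 / 4 : ℝ)) ^ 2 := by
    rw [← Real.rpow_natCast, ← Real.rpow_mul hx.le]
    norm_num
  rw [this, div_pow, mul_div_assoc]

/-- `x exp (-5 x ^ δ)` tends to zero. -/
theorem t2 (δ : ℝ) (hδ : 0 < δ) :
    Tendsto (fun x : ℝ => 2 * (x * Real.exp (-(5 * x ^ δ)))) atTop (𝓝 0) := by
  have h := (tendsto_rpow_mul_exp_neg_mul_atTop_nhds_zero (1 / δ) 5 (by norm_num)).comp
    (tendsto_rpow_atTop hδ)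
  have h2 := h.const_mul 2
  rw [mul_zero] at h2
  refine h2.congr' ?_
  filter_upwards [eventually_gt_atTop 0] with x hx
  simp only [Function.comp]
  rw [← Real.rpow_mul hx.le, mul_one_div_cancel hδ.ne', Real.rpow_one, neg_mul]

/-- `exp (-5 x ^ δ)` tends to zero. -/
theorem t3 (δ : ℝ) (hδ : 0 < δ) :
    Tendsto (fun x : ℝ => Real.exp (-(5 * x ^ δ))) atTop (𝓝 0) := by
  refine Real.tendsto_exp_atBot.comp ?_
  refine tendsto_neg_atTop_atBot.comp ?_
  exact (tendsto_rpow_atTop hδ).const_mul_atTop (by norm_num)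

/-- `log x * x ^ (-ε)` tends to zero. -/
theorem t4 (ε : ℝ) (hε : 0 < ε) :
    Tendsto (fun x : ℝ => 8 * (Real.log x / x ^ ε)) atTop (𝓝 0) := by
  have h := (isLittleO_log_rpow_atTop hε).tendsto_div_nhds_zero
  have h2 := h.const_mul 8
  rwa [mul_zero] at h2

theorem main : Pool.Agent.H958.RL.S_NUM2 := by
  intro ε η' hε hε2 hη
  have hδ : 0 < ε / 4 := by positivity
  have h4 : 0 < η' / 4 := by positivity
  have e1 := (t1.comp tendsto_natCast_atTop_atTop).eventually (gt_mem_nhds h4)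
  have e2 := ((t2 _ hδ).comp tendsto_natCast_atTop_atTop).eventually (gt_mem_nhds h4)
  have e3 := ((t3 _ hδ).comp tendsto_natCast_atTop_atTop).eventually (gt_mem_nhds h4)
  have e4 := ((t4 _ hε).comp tendsto_natCast_atTop_atTop).eventually (gt_mem_nhds h4)
  obtain ⟨N0, hN0⟩ := eventually_atTop.1 (e1.and (e2.and (e3.and (e4.and (eventually_ge_atTop 2)))))
  refine ⟨N0, ?_⟩
  intro n hn c η a d r φ b N L J hc hcl hb ha hbn hdr hJ hch hX hN
  obtain ⟨f1, f2, f3, f4, hn2⟩ := hN0 n hn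
  simp only [Function.comp] at f1 f2 f3 f4
  have hnpos : (0 : ℝ) < n := by
    have : 0 < n := by omega
    exact_mod_cast this
  have hn1 : (1 : ℝ) ≤ n := by
    have : 1 ≤ n := by omega
    exact_mod_cast this
  have hlog : 0 ≤ Real.log n := Real.log_nonneg hn1
  have hcl2 : c ≤ Real.log n := by
    refine hcl.trans ?_
    have : (1 - ε) * Real.log n = Real.log n - ε * Real.log n := by ring
    rw [this]
    have := mul_nonneg hε.le hlog
    linarith
  have hcn : c < n := by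
    have := Real.log_le_sub_one_of_pos hnpos
    linarith
  refine ⟨hcn, ?_⟩
  have hc0 : 0 < c := by linarith
  set p : ℝ := c / n with hp
  have hp0 : 0 < p := div_pos hc0 hnpos
  have hp1 : p < 1 := (div_lt_one hnpos).2 hcn
  have ha0 : (0 : ℝ) < (n : ℝ) ^ (1 / 2 : ℝ) := Real.rpow_pos_of_pos hnpos _
  have ha1 : (0 : ℝ) < a := lt_of_lt_of_le ha0 ha
  have hb0 : (0 : ℝ) < b := by
    have : 0 < b := by omega
    exact_mod_cast this
  -- first term
  have T1 : 2 * (1000 * ((d : ℝ) * r * p) / a) ≤ 2000 * (Real.log n) ^ 2 / (n : ℝ) ^ (1 / 2 : ℝ) := by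
    have k1 : (d : ℝ) * r * p ≤ (Real.log n) ^ 2 :=
      hdr.trans (pow_le_pow_left₀ hc0.le hcl2 2)
    have k2 : 2 * (1000 * ((d : ℝ) * r * p) / a) = 2000 * ((d : ℝ) * r * p) / a := by ring
    rw [k2]
    refine div_le_div₀ (by positivity) ?_ ha0 ha
    exact mul_le_mul_of_nonneg_left k1 (by norm_num)
  -- exponent bound
  have hbc : 5 * (n : ℝ) ^ (ε / 4) ≤ b * (c + 5) := by
    have k1 : (n : ℝ) ^ (ε / 4) * 5 ≤ b * (c + 5) :=
      mul_le_mul hbn (by linarith) (by norm_num) hb0.le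
    linarith
  have hexp : Real.exp (-(b * (c + 5))) ≤ Real.exp (-(5 * (n : ℝ) ^ (ε / 4))) :=
    Real.exp_le_exp.2 (by linarith)
  -- second term
  have T2 : 2 * ((a.choose b : ℝ) * (J * Real.exp (-(η ^ 2 * (L * p * ((b * φ : ℕ) : ℝ)) / 4)))) ≤
      2 * ((n : ℝ) * Real.exp (-(5 * (n : ℝ) ^ (ε / 4)))) := by
    refine mul_le_mul_of_nonneg_left ?_ (by norm_num)
    have k1 : Real.exp (-(η ^ 2 * (L * p * ((b * φ : ℕ) : ℝ)) / 4)) ≤
        Real.exp (-(b * (2 * c + 10))) := Real.exp_le_exp.2 (by linarith)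
    calc (a.choose b : ℝ) * (J * Real.exp (-(η ^ 2 * (L * p * ((b * φ : ℕ) : ℝ)) / 4)))
        ≤ Real.exp (b * (5 + c)) * (n * Real.exp (-(b * (2 * c + 10)))) := by
          refine mul_le_mul hch ?_ (by positivity) (Real.exp_pos _).le
          exact mul_le_mul hJ k1 (Real.exp_pos _).le hnpos.le
      _ = n * Real.exp (-(b * (c + 5))) := by
          rw [mul_left_comm, ← Real.exp_add]
          congr 2
          ring
      _ ≤ n * Real.exp (-(5 * (n : ℝ) ^ (ε / 4))) :=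
          mul_le_mul_of_nonneg_left hexp hnpos.le
  -- third term
  have T3 : (a.choose b : ℝ) ^ 2 * (1 - p) ^ (N ^ 2) ≤ Real.exp (-(5 * (n : ℝ) ^ (ε / 4))) := by
    have k1 : (a.choose b : ℝ) ^ 2 ≤ Real.exp (b * (5 + c)) ^ 2 :=
      pow_le_pow_left₀ (Nat.cast_nonneg _) hch 2
    have k2 : (1 - p) ^ (N ^ 2) ≤ Real.exp (-(b * (3 * c + 15))) := by
      have k3 : (1 - p) ≤ Real.exp (-p) := by
        have := Real.add_one_le_exp (-p)
        linarith
      calc (1 - p) ^ (N ^ 2) ≤ (Real.exp (-p)) ^ (N ^ 2) :=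
            pow_le_pow_left₀ (by linarith) k3 _
        _ = Real.exp (-(p * (N : ℝ) ^ 2)) := by
            rw [← Real.exp_nat_mul]
            congr 1
            push_cast
            ring
        _ ≤ Real.exp (-(b * (3 * c + 15))) := Real.exp_le_exp.2 (by linarith)
    calc (a.choose b : ℝ) ^ 2 * (1 - p) ^ (N ^ 2)
        ≤ Real.exp (b * (5 + c)) ^ 2 * Real.exp (-(b * (3 * c + 15))) :=
          mul_le_mul k1 k2 (pow_nonneg (by linarith) _) (by positivity)
      _ = Real.exp (-(b * (c + 5))) := by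
          rw [← Real.exp_nat_mul, ← Real.exp_add]
          congr 1
          push_cast
          ring
      _ ≤ _ := hexp
  -- fourth term
  have T4 : 8 * p * (1 + p) ^ n ≤ 8 * (Real.log n / (n : ℝ) ^ ε) := by
    have k1 : (1 + p) ^ n ≤ Real.exp c := by
      have k3 : (1 + p) ≤ Real.exp p := by
        have := Real.add_one_le_exp p
        linarith
      calc (1 + p) ^ n ≤ (Real.exp p) ^ n := pow_le_pow_left₀ (by linarith) k3 _
        _ = Real.exp c := by
            rw [← Real.exp_nat_mul]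
            congr 1
            rw [hp]
            field_simp
    have k2 : Real.exp c ≤ (n : ℝ) / (n : ℝ) ^ ε := by
      calc Real.exp c ≤ Real.exp ((1 - ε) * Real.log n) := Real.exp_le_exp.2 hcl
        _ = (n : ℝ) / (n : ℝ) ^ ε := by
            rw [mul_comm, ← Real.rpow_def_of_pos hnpos, Real.rpow_sub hnpos, Real.rpow_one]
    have hne : (0 : ℝ) < (n : ℝ) ^ ε := Real.rpow_pos_of_pos hnpos _
    calc 8 * p * (1 + p) ^ n ≤ 8 * p * ((n : ℝ) / (n : ℝ) ^ ε) :=
          mul_le_mul_of_nonneg_left (k1.trans k2) (by positivity)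
      _ = 8 * (c / (n : ℝ) ^ ε) := by
          rw [hp]
          field_simp
      _ ≤ 8 * (Real.log n / (n : ℝ) ^ ε) := by
          refine mul_le_mul_of_nonneg_left ?_ (by norm_num)
          exact div_le_div_of_nonneg_right hcl2 hne.le
  have hsum : 2 * (1000 * ((d : ℝ) * r * p) / a + (a.choose b : ℝ) *
      (J * Real.exp (-(η ^ 2 * (L * p * ((b * φ : ℕ) : ℝ)) / 4)))) +
      (a.choose b : ℝ) ^ 2 * (1 - p) ^ (N ^ 2) + 8 * p * (1 + p) ^ n =
      2 * (1000 * ((d : ℝ) * r * p) / a) + 2 * ((a.choose b : ℝ) *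
      (J * Real.exp (-(η ^ 2 * (L * p * ((b * φ : ℕ) : ℝ)) / 4)))) +
      (a.choose b : ℝ) ^ 2 * (1 - p) ^ (N ^ 2) + 8 * p * (1 + p) ^ n := by ring
  rw [hsum]
  linarith

end Pool.Agent.H706.RL.Num2
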